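import Mathlib

namespace Pool.Agent.Results.MP_2bd3fb_al.Counter

open scoped commutatorElement

/-- `G` is isomorphic to the derived subgroup of some group. -/
def Integrable (G : Type) [Group G] : Prop :=
  ∃ (H : Type) (_ : Group H), Nonempty (commutator H ≃* G)

/-- Every finitely generated subgroup is finite. -/
def LocallyFinite (G : Type) [Group G] : Prop :=
  ∀ S : Finset G, Finite (Subgroup.closure (S : Set G))

/-- Every finite subset lies in an integrable subgroup. -/
def LocallyIntegrable (G : Type) [Group G] : Prop :=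
  ∀ S : Finset G, ∃ K : Subgroup G, (S : Set G) ⊆ K ∧ Integrable K

abbrev F : Type := ℕ → ℂˣ

abbrev E : Type := F ⋊[MonoidHom.id (MulAut F)] MulAut F

def ht (n j : ℕ) : ℕ :=
  if j = 0 then n else if j ≤ 2 * n then (j + 1) / 2 else if j = 2 * n + 1 then n else 0

def sw (n j : ℕ) : ℕ :=
  if j = 0 then 2 * n + 1 else if j = 2 * n + 1 then 0 else
    if j ≤ 2 * n then (if j % 2 = 1 then j + 1 else j - 1) else
      (if j % 2 = 0 then j + 1 else j - 1)

def Pos (n j : ℕ) : Prop := j = 0 ∨ (j ≤ 2 * n ∧ j % 2 = 1) ∨ (2 * n + 2 ≤ j ∧ j % 2 = 0)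

instance (n j : ℕ) : Decidable (Pos n j) := by unfold Pos; infer_instance

theorem sw_spec (n j : ℕ) : (j = 0 ∧ sw n j = 2 * n + 1) ∨ (j = 2 * n + 1 ∧ sw n j = 0) ∨
    (0 < j ∧ j ≤ 2 * n ∧ j % 2 = 1 ∧ sw n j = j + 1) ∨
    (0 < j ∧ j ≤ 2 * n ∧ j % 2 = 0 ∧ sw n j = j - 1) ∨
    (2 * n + 1 < j ∧ j % 2 = 0 ∧ sw n j = j + 1) ∨
    (2 * n + 1 < j ∧ j % 2 = 1 ∧ sw n j = j - 1) := by
  unfold sw; split_ifs <;> omega

theorem ht_spec (n j : ℕ) : (j = 0 ∧ ht n j = n) ∨ (j = 2 * n + 1 ∧ ht n j = n) ∨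
    (0 < j ∧ j ≤ 2 * n ∧ ht n j = (j + 1) / 2) ∨ (2 * n + 1 < j ∧ ht n j = 0) := by
  unfold ht; split_ifs <;> omega

theorem sw_sw (n j : ℕ) : sw n (sw n j) = j := by
  have h1 := sw_spec n j
  have h2 := sw_spec n (sw n j)
  omega

theorem ht_sw (n j : ℕ) : ht n (sw n j) = ht n j := by
  have h1 := sw_spec n j
  have h2 := ht_spec n (sw n j)
  have h3 := ht_spec n j
  omega

theorem pos_sw (n j : ℕ) : Pos n (sw n j) ↔ ¬ Pos n j := by
  have h1 := sw_spec n j
  unfold Pos
  omega

theorem ht_mono {n m : ℕ} (h : n ≤ m) (j : ℕ) : ht n j ≤ ht m j := by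
  unfold ht; split_ifs <;> omega

def B (n : ℕ) : Subgroup F where
  carrier := {f | ∀ j, f j ^ 3 ^ ht n j = 1}
  mul_mem' := fun ha hb j => by simp [mul_pow, ha j, hb j]
  one_mem' := fun j => by simp
  inv_mem' := fun ha j => by simp [ha j]

theorem B_mono {n m : ℕ} (h : n ≤ m) : B n ≤ B m := by
  intro f hf j
  obtain ⟨d, hd⟩ := Nat.exists_eq_add_of_le (ht_mono h j)
  rw [hd, pow_add, pow_mul, hf j, one_pow]

theorem B_pow {n : ℕ} {f : F} (hf : f ∈ B n) (j : ℕ) : f j ^ 3 ^ n = 1 := by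
  have h2 : ht n j ≤ n := by unfold ht; split_ifs <;> omega
  have h3 : 3 ^ n = 3 ^ ht n j * 3 ^ (n - ht n j) := by rw [← pow_add]; congr 1; omega
  rw [h3, pow_mul, hf j, one_pow]

def A : Subgroup F where
  carrier := {f | ∃ n, f ∈ B n}
  mul_mem' := by
    rintro a b ⟨n, hn⟩ ⟨m, hm⟩
    exact ⟨max n m, (B _).mul_mem (B_mono (le_max_left _ _) hn) (B_mono (le_max_right _ _) hm)⟩
  one_mem' := ⟨0, (B 0).one_mem⟩
  inv_mem' := by
    rintro a ⟨n, hn⟩
    exact ⟨n, (B n).inv_mem hn⟩

def neg : MulAut F := MulEquiv.inv F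

theorem neg_apply (f : F) : neg f = f⁻¹ := rfl

def sig (n : ℕ) : MulAut F where
  toFun f := fun j => f (sw n j)
  invFun f := fun j => f (sw n j)
  left_inv f := by funext j; simp [sw_sw]
  right_inv f := by funext j; simp [sw_sw]
  map_mul' _ _ := rfl

noncomputable def tau (n : ℕ) : MulAut F where
  toFun f := fun j => if Pos n j then f j else (f j)⁻¹
  invFun f := fun j => if Pos n j then f j else (f j)⁻¹
  left_inv f := by funext j; by_cases h : Pos n j <;> simp [h]
  right_inv f := by funext j; by_cases h : Pos n j <;> simp [h]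
  map_mul' f g := by funext j; by_cases h : Pos n j <;> simp [h, mul_comm]

theorem neg_sq : neg * neg = 1 := by ext f j; simp [neg_apply]
theorem sig_sq (n : ℕ) : sig n * sig n = 1 := by ext f j; simp [sig, sw_sw]
theorem tau_sq (n : ℕ) : tau n * tau n = 1 := by
  ext f j; by_cases h : Pos n j <;> simp [tau, h]
theorem neg_comm (α : MulAut F) : neg * α = α * neg := by
  ext f j; simp [neg_apply]
theorem tau_sig (n : ℕ) : tau n * sig n = neg * (sig n * tau n) := by
  ext f j; by_cases h : Pos n j <;> simp [tau, sig, neg_apply, h, pos_sw]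

/-- the subgroup `{1, neg}` -/
def Z : Subgroup (MulAut F) where
  carrier := {α | α = 1 ∨ α = neg}
  mul_mem' := by
    rintro a b (rfl | rfl) (rfl | rfl) <;> simp [neg_sq]
  one_mem' := Or.inl rfl
  inv_mem' := by
    rintro a (rfl | rfl)
    · simp
    · exact Or.inr (inv_eq_of_mul_eq_one_right neg_sq)

instance : Z.Normal := ⟨by
  rintro a (rfl | rfl) g
  · exact Or.inl (by simp)
  · exact Or.inr (by rw [← neg_comm]; simp)⟩

/-- semidirect subgroups -/
def sd (M : Subgroup F) (Q : Subgroup (MulAut F)) (h : ∀ α ∈ Q, ∀ f ∈ M, α f ∈ M) :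
    Subgroup E where
  carrier := {x | x.left ∈ M ∧ x.right ∈ Q}
  mul_mem' := by
    rintro a b ⟨ha, ha'⟩ ⟨hb, hb'⟩
    exact ⟨M.mul_mem ha (h _ ha' _ hb), Q.mul_mem ha' hb'⟩
  one_mem' := ⟨M.one_mem, Q.one_mem⟩
  inv_mem' := by
    rintro a ⟨ha, ha'⟩
    exact ⟨h _ (Q.inv_mem ha') _ (M.inv_mem ha), Q.inv_mem ha'⟩

theorem Z_pres (M : Subgroup F) : ∀ α ∈ Z, ∀ f ∈ M, α f ∈ M := by
  rintro a (rfl | rfl) f hf
  · exact hf
  · exact M.inv_mem hf

def G : Subgroup E := sd A Z (Z_pres A)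

def K (n : ℕ) : Subgroup E := sd (B n) Z (Z_pres _)

noncomputable def Q (n : ℕ) : Subgroup (MulAut F) := Subgroup.closure {sig n, tau n}

theorem Q_pres (n : ℕ) : ∀ α ∈ Q n, ∀ f ∈ B n, α f ∈ B n := by
  intro α hα
  have hs : ∀ x ∈ ({sig n, tau n} : Set (MulAut F)), ∀ f ∈ B n, x f ∈ B n := by
    rintro x (rfl | rfl) f hf j
    · show f (sw n j) ^ _ = 1
      rw [← ht_sw]; exact hf _
    · show (if Pos n j then f j else (f j)⁻¹) ^ _ = 1
      split_ifs <;> simp [hf j]
  induction hα using Subgroup.closure_induction'' with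
  | mem x hx => exact hs x hx
  | inv_mem x hx =>
    rcases hx with rfl | rfl
    · rw [inv_eq_of_mul_eq_one_right (sig_sq n)]; exact hs _ (by simp)
    · rw [inv_eq_of_mul_eq_one_right (tau_sq n)]; exact hs _ (by simp)
  | one => exact fun f hf => hf
  | mul x y _ _ hx hy => exact fun f hf => hx _ (hy f hf)

noncomputable def H (n : ℕ) : Subgroup E := sd (B n) (Q n) (Q_pres n)

theorem comm_st (n : ℕ) : ⁅tau n, sig n⁆ = neg := by
  rw [commutatorElement_def, tau_sig, inv_eq_of_mul_eq_one_right (sig_sq n),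
    inv_eq_of_mul_eq_one_right (tau_sq n)]
  calc neg * (sig n * tau n) * tau n * sig n = neg * (sig n * (tau n * tau n) * sig n) := by group
    _ = neg := by rw [tau_sq, mul_one, sig_sq, mul_one]

theorem Q_comm (n : ℕ) (a b : MulAut F) (ha : a ∈ Q n) (hb : b ∈ Q n) : ⁅a, b⁆ ∈ Z := by
  rw [← QuotientGroup.eq_one_iff, ← QuotientGroup.mk'_apply, map_commutatorElement,
    commutatorElement_eq_one_iff_commute]
  have h1 : Commute (QuotientGroup.mk' Z (tau n)) (QuotientGroup.mk' Z (sig n)) := by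
    rw [← commutatorElement_eq_one_iff_commute, ← map_commutatorElement, comm_st]
    exact (QuotientGroup.eq_one_iff _).2 (Or.inr rfl)
  induction ha, hb using Subgroup.closure_induction₂ with
  | mem x y hx hy =>
    rcases hx with rfl | rfl <;> rcases hy with rfl | rfl
    · exact Commute.refl _
    · exact h1.symm
    · exact h1
    · exact Commute.refl _
  | one_left x _ => simp
  | one_right x _ => simp
  | mul_left x y z _ _ _ h1 h2 => rw [map_mul]; exact h1.mul_left h2
  | mul_right y z x _ _ _ h1 h2 => rw [map_mul]; exact h1.mul_right h2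
  | inv_left x y _ _ h => rw [map_inv]; exact h.inv_left
  | inv_right x y _ _ h => rw [map_inv]; exact h.inv_right

theorem HH (n : ℕ) : ⁅H n, H n⁆ = K n := by
  have hs : sig n ∈ Q n := Subgroup.subset_closure (by simp)
  have ht' : tau n ∈ Q n := Subgroup.subset_closure (by simp)
  have hneg : neg ∈ Q n := by
    rw [← comm_st n, commutatorElement_def]
    exact (Q n).mul_mem ((Q n).mul_mem ((Q n).mul_mem ht' hs) ((Q n).inv_mem ht'))
      ((Q n).inv_mem hs)
  apply le_antisymm
  · rw [Subgroup.commutator_le]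
    intro a ha b hb
    have h1 : ⁅a, b⁆ ∈ H n := by
      rw [commutatorElement_def]
      exact (H n).mul_mem ((H n).mul_mem ((H n).mul_mem ha hb) ((H n).inv_mem ha))
        ((H n).inv_mem hb)
    refine ⟨h1.1, ?_⟩
    have := map_commutatorElement (SemidirectProduct.rightHom : E →* MulAut F) a b
    rw [SemidirectProduct.rightHom_eq_right] at this
    rw [this]
    exact Q_comm n _ _ ha.2 hb.2
  · rintro x ⟨hx, hx'⟩
    rw [← SemidirectProduct.inl_left_mul_inr_right x]
    apply Subgroup.mul_mem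
    · have hk : Odd (3 ^ n) := Odd.pow (by decide)
      obtain ⟨k, hk⟩ := hk
      have h1 : x.left ^ 3 ^ n = 1 := funext fun j => B_pow hx j
      have h2 : (SemidirectProduct.inl x.left : E) =
          ⁅(SemidirectProduct.inl (x.left ^ (k + 1)) : E), SemidirectProduct.inr neg⁆ := by
        have h3 : x.left ^ (k + 1) * x.left ^ (k + 1) = x.left := by
          rw [← pow_add, show k + 1 + (k + 1) = 3 ^ n + 1 by omega, pow_succ, h1, one_mul]
        rw [commutatorElement_def]
        generalize x.left ^ (k + 1) = c at h3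
        ext1
        · simp [neg_apply, h3]
        · simp
      rw [h2]
      exact Subgroup.commutator_mem_commutator ⟨(B n).pow_mem hx _, (Q n).one_mem⟩
        ⟨(B n).one_mem, hneg⟩
    · rcases hx' with h | h
      · rw [h, map_one]; exact Subgroup.one_mem _
      · rw [h, ← comm_st n, map_commutatorElement]
        exact Subgroup.commutator_mem_commutator ⟨(B n).one_mem, ht'⟩ ⟨(B n).one_mem, hs⟩

theorem K_le (n : ℕ) : K n ≤ G := fun _ hx => ⟨⟨n, hx.1⟩, hx.2⟩

theorem B_fin (n : ℕ) : Finite (B n) := by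
  have h1 : Finite (rootsOfUnity (3 ^ n) ℂ) := inferInstance
  let φ : B n → (Fin (2 * n + 2) → rootsOfUnity (3 ^ n) ℂ) := fun f j =>
    ⟨f.1 j, (mem_rootsOfUnity _ _).2 (B_pow f.2 j)⟩
  apply Finite.of_injective φ
  intro f g h
  ext1
  funext j
  by_cases hj : j < 2 * n + 2
  · exact congrArg Subtype.val (congrFun h ⟨j, hj⟩)
  · have h2 : ht n j = 0 := by unfold ht; split_ifs <;> omega
    have e1 := f.2 j
    have e2 := g.2 j
    rw [h2, pow_zero, pow_one] at e1 e2
    rw [e1, e2]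

theorem K_fin (n : ℕ) : Finite (K n) := by
  have := B_fin n
  have : Finite Z := by
    apply Set.Finite.to_subtype
    exact (Set.toFinite {1, neg}).subset (fun _ h => h)
  apply Finite.of_injective (fun x : K n => ((⟨x.1.left, x.2.1⟩, ⟨x.1.right, x.2.2⟩) : B n × Z))
  intro x y h
  simp only [Prod.mk.injEq, Subtype.mk.injEq] at h
  exact Subtype.ext (SemidirectProduct.ext h.1 h.2)

theorem cover (S : Finset G) : ∃ n, ∀ x ∈ S, (x : E) ∈ K n := by
  choose m hm using fun x : G => x.2.1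
  exact ⟨S.sup m, fun x hx => ⟨B_mono (Finset.le_sup hx) (hm x), x.2.2⟩⟩

def Special {X : Type} [Group X] (x : X) : Prop := x ^ 3 = 1 ∧ ∀ m, ∃ y : X, y ^ 3 ^ m = x

theorem refl_pow (y : E) (hy : y.right = neg) (k : ℕ) : (y ^ (2 * k + 1)).right = neg := by
  have h1 : (y ^ (2 * k + 1)).right = y.right ^ (2 * k + 1) :=
    map_pow (SemidirectProduct.rightHom : E →* MulAut F) y (2 * k + 1)
  rw [h1, hy, pow_succ, pow_mul, pow_two, neg_sq, one_pow, one_mul]

theorem neg_ne : neg ≠ 1 := by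
  intro h
  have := congrArg (fun α : MulAut F => ((α (fun _ => Units.mk0 2 two_ne_zero) 0 : ℂˣ) : ℂ)) h
  simp [neg_apply] at this
  norm_num at this

theorem special_form (x : G) (hx : Special x) :
    (x : E).right = 1 ∧ (x : E).left 0 ^ 3 = 1 ∧ ∀ j, j ≠ 0 → (x : E).left j = 1 := by
  have hr : ∀ (y : G) (k : ℕ), ((y ^ (2 * k + 1) : G) : E).right = 1 → (y : E).right = 1 := by
    intro y k h
    rcases y.2.2 with h1 | h1
    · exact h1
    · rw [Subgroup.coe_pow, refl_pow _ h1] at h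
      exact absurd h neg_ne
  have hp : ∀ (y : E), y.right = 1 → ∀ k, (y ^ k).left = y.left ^ k := by
    intro y hy k
    have : y = SemidirectProduct.inl y.left := SemidirectProduct.ext rfl hy
    rw [this, ← map_pow]; rfl
  have h1 : (x : E).right = 1 := hr x 1 (by rw [hx.1]; rfl)
  refine ⟨h1, ?_, fun j hj => ?_⟩
  · have := congrArg (fun z : G => (z : E).left 0) hx.1
    simp only [Subgroup.coe_pow, hp _ h1] at this
    exact this
  · obtain ⟨y, hy⟩ := hx.2 ((j + 1) / 2)
    obtain ⟨k, hk⟩ : Odd (3 ^ ((j + 1) / 2)) := Odd.pow (by decide)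
    have h2 : (y : E).right = 1 := hr y k (by rw [← hk, hy]; exact h1)
    rw [← hy, Subgroup.coe_pow, hp _ h2]
    obtain ⟨n, hn⟩ := y.2.1
    have h3 := B_mono (le_max_left n j) hn j
    have h4 : ht (max n j) j = (j + 1) / 2 := by unfold ht; split_ifs <;> omega
    rw [h4] at h3
    exact h3

theorem special_two (x y : G) (hx : Special x) (hy : Special y) (hx1 : x ≠ 1) (hy1 : y ≠ 1) :
    y = x ∨ y = x⁻¹ := by
  obtain ⟨a1, a2, a3⟩ := special_form x hx
  obtain ⟨b1, b2, b3⟩ := special_form y hy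
  have ext' : ∀ u v : E, u.right = 1 → v.right = 1 → (∀ j, j ≠ 0 → u.left j = 1) →
      (∀ j, j ≠ 0 → v.left j = 1) → u.left 0 = v.left 0 → u = v := by
    intro u v h1 h2 h3 h4 h5
    refine SemidirectProduct.ext (funext fun j => ?_) (h1.trans h2.symm)
    by_cases hj : j = 0
    · rw [hj, h5]
    · rw [h3 j hj, h4 j hj]
  have na : (x : E).left 0 ≠ 1 := fun h =>
    hx1 (Subtype.ext (ext' _ _ a1 rfl a3 (fun _ _ => rfl) h))
  have nb : (y : E).left 0 ≠ 1 := fun h =>
    hy1 (Subtype.ext (ext' _ _ b1 rfl b3 (fun _ _ => rfl) h))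
  set a := (x : E).left 0 with ha
  set b := (y : E).left 0 with hb
  have ca : (a : ℂ) ^ 3 = 1 := by simpa using congrArg Units.val a2
  have cb : (b : ℂ) ^ 3 = 1 := by simpa using congrArg Units.val b2
  have da : (a : ℂ) - 1 ≠ 0 := sub_ne_zero.2 (fun h => na (Units.ext h))
  have db : (b : ℂ) - 1 ≠ 0 := sub_ne_zero.2 (fun h => nb (Units.ext h))
  have ea : (a : ℂ) ^ 2 + a + 1 = 0 := mul_left_cancel₀ da (by linear_combination ca)
  have eb : (b : ℂ) ^ 2 + b + 1 = 0 := mul_left_cancel₀ db (by linear_combination cb)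
  have : ((b : ℂ) - a) * (b * a - 1) = 0 := by
    linear_combination (a : ℂ) * eb - (b : ℂ) * ea
  rcases mul_eq_zero.1 this with h | h
  · exact Or.inl (Subtype.ext (ext' _ _ b1 a1 b3 a3 (Units.ext (sub_eq_zero.1 h))))
  · right
    have h2 : b * a = 1 := Units.ext (sub_eq_zero.1 h)
    refine Subtype.ext (ext' _ _ b1 (by simp [a1]) b3 (fun j hj => by simp [a1, a3 j hj]) ?_)
    simp only [Subgroup.coe_inv, SemidirectProduct.inv_left, a1, inv_one, map_one,
      MulAut.one_apply, Pi.inv_apply]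
    exact eq_inv_of_mul_eq_one_left h2

theorem single_mem (c : ℂˣ) (n : ℕ) (hc : c ^ 3 ^ n = 1) :
    (SemidirectProduct.inl (Pi.mulSingle 0 c) : E) ∈ G := by
  refine ⟨⟨n, fun j => ?_⟩, Or.inl rfl⟩
  by_cases hj : j = 0
  · subst hj; simpa [ht] using hc
  · simp [Pi.mulSingle_eq_of_ne hj]

theorem exists_special : ∃ x t : G, Special x ∧ x ≠ x⁻¹ ∧ t * x * t⁻¹ = x⁻¹ := by
  have hω := Complex.isPrimitiveRoot_exp 3 (by norm_num)
  set ω := Complex.exp (2 * Real.pi * Complex.I / (3 : ℕ)) with hωdef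
  have h0 : ω ≠ 0 := hω.ne_zero (by norm_num)
  have h3 : Units.mk0 ω h0 ^ 3 ^ 1 = 1 := Units.ext (by simpa using hω.pow_eq_one)
  refine ⟨⟨_, single_mem _ 1 h3⟩, ⟨SemidirectProduct.inr neg, A.one_mem, Or.inr rfl⟩,
    ⟨?_, fun m => ?_⟩, ?_, ?_⟩
  · apply Subtype.ext
    rw [Subgroup.coe_pow, ← map_pow, ← Pi.mulSingle_pow]
    rw [pow_one] at h3
    rw [h3]; simp
  · obtain ⟨z, hz⟩ := IsAlgClosed.exists_pow_nat_eq ω (n := 3 ^ m) (by positivity)
    have hz0 : z ≠ 0 := by rintro rfl; rw [zero_pow (by positivity)] at hz; exact h0 hz.symm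
    have e : Units.mk0 z hz0 ^ 3 ^ m = Units.mk0 ω h0 := Units.ext (by simpa using hz)
    refine ⟨⟨_, single_mem (Units.mk0 z hz0) (m + 1) (by
      rw [pow_succ, pow_mul, e, ← h3, pow_one])⟩, Subtype.ext ?_⟩
    rw [Subgroup.coe_pow, ← map_pow, ← Pi.mulSingle_pow, e]
  · intro h
    have h1 := congrArg (fun z : G => (((z : E).left 0 : ℂˣ) : ℂ)) h
    simp at h1
    have h2 : ω ^ 2 = 1 := by rw [pow_two]; nth_rewrite 1 [h1]; exact inv_mul_cancel₀ h0
    exact absurd (hω.dvd_of_pow_eq_one 2 h2) (by norm_num)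
  · apply Subtype.ext
    ext1
    · simp [neg_apply]
    · simp

theorem result : ∃ (X : Type) (_ : Group X), LocallyFinite X ∧ LocallyIntegrable X ∧
    ¬ Integrable X := by
  refine ⟨G, inferInstance, fun S => ?_, fun S => ?_, ?_⟩
  · obtain ⟨n, hn⟩ := cover S
    have := K_fin n
    have h1 : Subgroup.closure (S : Set G) ≤ (K n).subgroupOf G :=
      (Subgroup.closure_le _).2 hn
    have : Finite ((K n).subgroupOf G) :=
      Finite.of_equiv _ (Subgroup.subgroupOfEquivOfLe (K_le n)).symm.toEquiv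
    exact Finite.of_injective _ (Subgroup.inclusion_injective h1)
  · obtain ⟨n, hn⟩ := cover S
    refine ⟨(K n).subgroupOf G, hn, H n, inferInstance, ⟨?_⟩⟩
    have e : (commutator (H n)).map (H n).subtype = K n := by
      rw [Subgroup.map_subtype_commutator, HH]
    exact ((Subgroup.equivMapOfInjective _ _ (H n).subtype_injective).trans
      (MulEquiv.subgroupCongr e)).trans (Subgroup.subgroupOfEquivOfLe (K_le n)).symm
  · rintro ⟨Y, _, ⟨e⟩⟩
    obtain ⟨x, t, hx, hne, htx⟩ := exists_special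
    have hx1 : x ≠ 1 := by rintro rfl; exact hne (by simp)
    set w : Y := (e.symm x : Y) with hw
    have key : ∀ h : Y, h * w * h⁻¹ = w ∨ h * w * h⁻¹ = w⁻¹ := by
      intro h
      let φ : G ≃* G := (e.symm.trans (MulAut.conjNormal h)).trans e
      have h1 : Special (φ x) := ⟨by rw [← map_pow, hx.1, map_one], fun m => by
        obtain ⟨y, hy⟩ := hx.2 m
        exact ⟨φ y, by rw [← map_pow, hy]⟩⟩
      have h2 := special_two x (φ x) hx h1 hx1 (by simpa using hx1)
      have h3 : ((e.symm (φ x) : commutator Y) : Y) = h * w * h⁻¹ := by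
        simp [φ, hw]
      rcases h2 with h2 | h2
      · left; rw [← h3, h2]
      · right; rw [← h3, h2]; simp [hw]
    have hc : commutator Y ≤ Subgroup.centralizer {w} := by
      rw [commutator_def, Subgroup.commutator_le]
      intro a _ b _
      rw [Subgroup.mem_centralizer_singleton_iff]
      have ka := key a
      have kb := key b
      have h1 : a * b * w * (a * b)⁻¹ = b * a * w * (b * a)⁻¹ := by
        have l1 : a * b * w * (a * b)⁻¹ = a * (b * w * b⁻¹) * a⁻¹ := by group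
        have l2 : b * a * w * (b * a)⁻¹ = b * (a * w * a⁻¹) * b⁻¹ := by group
        have i1 : ∀ c : Y, c * w⁻¹ * c⁻¹ = (c * w * c⁻¹)⁻¹ := fun c => by group
        rw [l1, l2]
        rcases ka with ka | ka <;> rcases kb with kb | kb <;> simp only [ka, kb, i1, inv_inv]
      have h2 : (b * a) * w * (b * a)⁻¹ = w ∨ (b * a) * w * (b * a)⁻¹ = w⁻¹ := key _
      have h3 : ⁅a, b⁆ * (b * a * w * (b * a)⁻¹) * ⁅a, b⁆⁻¹ = b * a * w * (b * a)⁻¹ := by
        rw [commutatorElement_def]
        nth_rewrite 2 [← h1]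
        group
      rcases h2 with h2 | h2
      · rw [h2] at h3
        calc ⁅a, b⁆ * w = ⁅a, b⁆ * w * ⁅a, b⁆⁻¹ * ⁅a, b⁆ := by group
          _ = _ := by rw [h3]
      · rw [h2] at h3
        have h4 : ⁅a, b⁆ * w * ⁅a, b⁆⁻¹ = w := by
          apply inv_injective
          rw [← h3]; group
        calc ⁅a, b⁆ * w = ⁅a, b⁆ * w * ⁅a, b⁆⁻¹ * ⁅a, b⁆ := by group
          _ = _ := by rw [h4]
    have h5 := hc (e.symm t).2
    rw [Subgroup.mem_centralizer_singleton_iff] at h5
    have h6 : e.symm t * e.symm x = e.symm x * e.symm t := Subtype.ext h5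
    rw [← map_mul, ← map_mul] at h6
    have h7 := e.symm.injective h6
    apply hne
    rw [← htx, h7]; simp

end Pool.Agent.Results.MP_2bd3fb_al.Counter
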